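import Pool.Agent.NNr.R13_1_2_5.D0
import Pool.Agent.NNr.R13_1_2_5.D1
import Pool.Agent.NNr.R13_1_2_5.D2
import Pool.Agent.NNe.Slots

set_option linter.all false
set_option maxRecDepth 1000000
namespace Pool.Agent.NNr.R13_1_2_5

open Pool.Agent.NNe

def st1_4_0 : starCk (nat_lit 59) (nat_lit 27) (nat_lit 1) (nat_lit 13) (nat_lit 22) (nat_lit 31) (nat_lit 1) C1_4 = true := by decide +kernel
def sc1_4 : stCov (nat_lit 0) (nat_lit 31) (Rl.cons (nat_lit 31) (nat_lit 22) Rl.nil) C1_4 = true := by decide +kernel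
def wf1_5 : wfC (nat_lit 59) (nat_lit 27) C1_5 = true := by decide +kernel
def rf1_5 : rfCk (nat_lit 61) (nat_lit 5) (nat_lit 59) (nat_lit 27) (nat_lit 9) (nat_lit 0) (nat_lit 5) TL1 CL0 CL1 = true := by decide +kernel
def st1_5_0 : starCk (nat_lit 59) (nat_lit 27) (nat_lit 1) (nat_lit 13) (nat_lit 5) (nat_lit 6) (nat_lit 1) C1_5 = true := by decide +kernel
def sc1_5 : stCov (nat_lit 0) (nat_lit 6) (Rl.cons (nat_lit 6) (nat_lit 5) Rl.nil) C1_5 = true := by decide +kernel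
def wf1_6 : wfC (nat_lit 59) (nat_lit 27) C1_6 = true := by decide +kernel
def rf1_6 : rfCk (nat_lit 61) (nat_lit 5) (nat_lit 59) (nat_lit 27) (nat_lit 9) (nat_lit 0) (nat_lit 6) TL1 CL0 CL1 = true := by decide +kernel
def st1_6_0 : starCk (nat_lit 59) (nat_lit 27) (nat_lit 1) (nat_lit 13) (nat_lit 11) (nat_lit 69) (nat_lit 256) C1_6 = true := by decide +kernel
def sc1_6 : stCov (nat_lit 2) (nat_lit 69) (Rl.cons (nat_lit 69) (nat_lit 11) Rl.nil) C1_6 = true := by decide +kernel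
def wf1_7 : wfC (nat_lit 59) (nat_lit 27) C1_7 = true := by decide +kernel
def rf1_7 : rfCk (nat_lit 61) (nat_lit 5) (nat_lit 59) (nat_lit 27) (nat_lit 9) (nat_lit 0) (nat_lit 7) TL1 CL0 CL1 = true := by decide +kernel
def st1_7_0 : starCk (nat_lit 59) (nat_lit 27) (nat_lit 1) (nat_lit 13) (nat_lit 16) (nat_lit 44) (nat_lit 16) C1_7 = true := by decide +kernel
def sc1_7 : stCov (nat_lit 1) (nat_lit 44) (Rl.cons (nat_lit 44) (nat_lit 16) Rl.nil) C1_7 = true := by decide +kernel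
def wf1_9 : wfC (nat_lit 59) (nat_lit 27) C1_9 = true := by decide +kernel
def rf1_9 : rfCk (nat_lit 61) (nat_lit 5) (nat_lit 59) (nat_lit 27) (nat_lit 9) (nat_lit 0) (nat_lit 9) TL1 CL0 CL1 = true := by decide +kernel
def st1_9_0 : starCk (nat_lit 59) (nat_lit 27) (nat_lit 1) (nat_lit 13) (nat_lit 5) (nat_lit 35) (nat_lit 256) C1_9 = true := by decide +kernel
def sc1_9 : stCov (nat_lit 2) (nat_lit 35) (Rl.cons (nat_lit 35) (nat_lit 5) Rl.nil) C1_9 = true := by decide +kernel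
def wf1_10 : wfC (nat_lit 59) (nat_lit 27) C1_10 = true := by decide +kernel
def rf1_10 : rfCk (nat_lit 61) (nat_lit 5) (nat_lit 59) (nat_lit 27) (nat_lit 9) (nat_lit 0) (nat_lit 10) TL1 CL0 CL1 = true := by decide +kernel
def st1_10_0 : starCk (nat_lit 59) (nat_lit 27) (nat_lit 1) (nat_lit 13) (nat_lit 6) (nat_lit 21) (nat_lit 256) C1_10 = true := by decide +kernel
def sc1_10 : stCov (nat_lit 2) (nat_lit 21) (Rl.cons (nat_lit 21) (nat_lit 6) Rl.nil) C1_10 = true := by decide +kernel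
def wf1_17 : wfC (nat_lit 59) (nat_lit 27) C1_17 = true := by decide +kernel
def rf1_17 : rfCk (nat_lit 61) (nat_lit 5) (nat_lit 59) (nat_lit 27) (nat_lit 9) (nat_lit 0) (nat_lit 17) TL1 CL0 CL1 = true := by decide +kernel
def st1_17_0 : starCk (nat_lit 59) (nat_lit 27) (nat_lit 1) (nat_lit 13) (nat_lit 70) (nat_lit 87) (nat_lit 4096) C1_17 = true := by decide +kernel
def sc1_17 : stCov (nat_lit 3) (nat_lit 87) (Rl.cons (nat_lit 87) (nat_lit 70) Rl.nil) C1_17 = true := by decide +kernel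
def wf1_18 : wfC (nat_lit 59) (nat_lit 27) C1_18 = true := by decide +kernel
def rf1_18 : rfCk (nat_lit 61) (nat_lit 5) (nat_lit 59) (nat_lit 27) (nat_lit 9) (nat_lit 0) (nat_lit 18) TL1 CL0 CL1 = true := by decide +kernel
def st1_18_0 : starCk (nat_lit 59) (nat_lit 27) (nat_lit 1) (nat_lit 13) (nat_lit 45) (nat_lit 104) (nat_lit 16) C1_18 = true := by decide +kernel
def sc1_18 : stCov (nat_lit 1) (nat_lit 104) (Rl.cons (nat_lit 104) (nat_lit 45) Rl.nil) C1_18 = true := by decide +kernel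
def wf1_19 : wfC (nat_lit 59) (nat_lit 27) C1_19 = true := by decide +kernel
def rf1_19 : rfCk (nat_lit 61) (nat_lit 5) (nat_lit 59) (nat_lit 27) (nat_lit 9) (nat_lit 0) (nat_lit 19) TL1 CL0 CL1 = true := by decide +kernel
def st1_19_0 : starCk (nat_lit 59) (nat_lit 27) (nat_lit 1) (nat_lit 13) (nat_lit 40) (nat_lit 40) (nat_lit 1) C1_19 = true := by decide +kernel
def sc1_19 : stCov (nat_lit 0) (nat_lit 40) (Rl.cons (nat_lit 40) (nat_lit 40) Rl.nil) C1_19 = true := by decide +kernel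
def wf1_20 : wfC (nat_lit 59) (nat_lit 27) C1_20 = true := by decide +kernel
def rf1_20 : rfCk (nat_lit 61) (nat_lit 5) (nat_lit 59) (nat_lit 27) (nat_lit 9) (nat_lit 0) (nat_lit 20) TL1 CL0 CL1 = true := by decide +kernel
def st1_20_0 : starCk (nat_lit 59) (nat_lit 27) (nat_lit 1) (nat_lit 13) (nat_lit 42) (nat_lit 92) (nat_lit 256) C1_20 = true := by decide +kernel
def sc1_20 : stCov (nat_lit 2) (nat_lit 92) (Rl.cons (nat_lit 92) (nat_lit 42) Rl.nil) C1_20 = true := by decide +kernel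
def wf1_21 : wfC (nat_lit 59) (nat_lit 27) C1_21 = true := by decide +kernel
def rf1_21 : rfCk (nat_lit 61) (nat_lit 5) (nat_lit 59) (nat_lit 27) (nat_lit 9) (nat_lit 0) (nat_lit 21) TL1 CL0 CL1 = true := by decide +kernel
def st1_21_0 : starCk (nat_lit 59) (nat_lit 27) (nat_lit 1) (nat_lit 13) (nat_lit 31) (nat_lit 63) (nat_lit 16) C1_21 = true := by decide +kernel
def sc1_21 : stCov (nat_lit 1) (nat_lit 63) (Rl.cons (nat_lit 63) (nat_lit 31) Rl.nil) C1_21 = true := by decide +kernel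
def wf1_22 : wfC (nat_lit 59) (nat_lit 27) C1_22 = true := by decide +kernel
def rf1_22 : rfCk (nat_lit 61) (nat_lit 5) (nat_lit 59) (nat_lit 27) (nat_lit 9) (nat_lit 0) (nat_lit 22) TL1 CL0 CL1 = true := by decide +kernel
def st1_22_0 : starCk (nat_lit 59) (nat_lit 27) (nat_lit 1) (nat_lit 13) (nat_lit 14) (nat_lit 39) (nat_lit 16) C1_22 = true := by decide +kernel
def sc1_22 : stCov (nat_lit 1) (nat_lit 39) (Rl.cons (nat_lit 39) (nat_lit 14) Rl.nil) C1_22 = true := by decide +kernel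
def wf1_23 : wfC (nat_lit 59) (nat_lit 27) C1_23 = true := by decide +kernel
def rf1_23 : rfCk (nat_lit 61) (nat_lit 5) (nat_lit 59) (nat_lit 27) (nat_lit 9) (nat_lit 0) (nat_lit 23) TL1 CL0 CL1 = true := by decide +kernel
def st1_23_0 : starCk (nat_lit 59) (nat_lit 27) (nat_lit 1) (nat_lit 13) (nat_lit 6) (nat_lit 10) (nat_lit 4096) C1_23 = true := by decide +kernel
def sc1_23 : stCov (nat_lit 3) (nat_lit 10) (Rl.cons (nat_lit 10) (nat_lit 6) Rl.nil) C1_23 = true := by decide +kernel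
def ti1_0 : tileCk (nat_lit 59) (nat_lit 27) (nat_lit 2) (nat_lit 13) (nat_lit 148) (nat_lit 13) (nat_lit 24) ZL1_0 CL1 = true := by decide +kernel
def zl1_0 : zlOK (nat_lit 148) ZL1_0 = true := by decide +kernel
def ti1_1 : tileCk (nat_lit 59) (nat_lit 27) (nat_lit 2) (nat_lit 13) (nat_lit 149) (nat_lit 13) (nat_lit 24) ZL1_1 CL1 = true := by decide +kernel
def zl1_1 : zlOK (nat_lit 149) ZL1_1 = true := by decide +kernel
def tc1_0 : tiCov (nat_lit 1) (nat_lit 0) ZZ1 C1_0 = true := by decide +kernel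
def tc1_1 : tiCov (nat_lit 1) (nat_lit 1) ZZ1 C1_1 = true := by decide +kernel
def tc1_2 : tiCov (nat_lit 1) (nat_lit 2) ZZ1 C1_2 = true := by decide +kernel
def tc1_3 : tiCov (nat_lit 1) (nat_lit 3) ZZ1 C1_3 = true := by decide +kernel
def tc1_4 : tiCov (nat_lit 1) (nat_lit 4) ZZ1 C1_4 = true := by decide +kernel
def tc1_5 : tiCov (nat_lit 1) (nat_lit 5) ZZ1 C1_5 = true := by decide +kernel
def tc1_6 : tiCov (nat_lit 1) (nat_lit 6) ZZ1 C1_6 = true := by decide +kernel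
def tc1_7 : tiCov (nat_lit 1) (nat_lit 7) ZZ1 C1_7 = true := by decide +kernel
def tc1_9 : tiCov (nat_lit 1) (nat_lit 9) ZZ1 C1_9 = true := by decide +kernel
def tc1_10 : tiCov (nat_lit 1) (nat_lit 10) ZZ1 C1_10 = true := by decide +kernel
def tc1_17 : tiCov (nat_lit 1) (nat_lit 17) ZZ1 C1_17 = true := by decide +kernel
def tc1_18 : tiCov (nat_lit 1) (nat_lit 18) ZZ1 C1_18 = true := by decide +kernel
def tc1_19 : tiCov (nat_lit 1) (nat_lit 19) ZZ1 C1_19 = true := by decide +kernel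
def tc1_20 : tiCov (nat_lit 1) (nat_lit 20) ZZ1 C1_20 = true := by decide +kernel
def tc1_21 : tiCov (nat_lit 1) (nat_lit 21) ZZ1 C1_21 = true := by decide +kernel
def tc1_22 : tiCov (nat_lit 1) (nat_lit 22) ZZ1 C1_22 = true := by decide +kernel
def tc1_23 : tiCov (nat_lit 1) (nat_lit 23) ZZ1 C1_23 = true := by decide +kernel
def wf2_0 : wfC (nat_lit 49) (nat_lit 17) C2_0 = true := by decide +kernel
def rf2_0 : rfCk (nat_lit 59) (nat_lit 27) (nat_lit 49) (nat_lit 17) (nat_lit 9) (nat_lit 0) (nat_lit 0) TL2 CL1 CL2 = true := by decide +kernel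
def st2_0_0 : starCk (nat_lit 49) (nat_lit 17) (nat_lit 1) (nat_lit 8) (nat_lit 2) (nat_lit 5) (nat_lit 256) C2_0 = true := by decide +kernel
def sc2_0 : stCov (nat_lit 2) (nat_lit 5) (Rl.cons (nat_lit 5) (nat_lit 2) Rl.nil) C2_0 = true := by decide +kernel
def wf2_1 : wfC (nat_lit 49) (nat_lit 17) C2_1 = true := by decide +kernel
def rf2_1 : rfCk (nat_lit 59) (nat_lit 27) (nat_lit 49) (nat_lit 17) (nat_lit 9) (nat_lit 0) (nat_lit 1) TL2 CL1 CL2 = true := by decide +kernel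
def st2_1_0 : starCk (nat_lit 49) (nat_lit 17) (nat_lit 1) (nat_lit 8) (nat_lit 2) (nat_lit 0) (nat_lit 16) C2_1 = true := by decide +kernel
def sc2_1 : stCov (nat_lit 1) (nat_lit 0) (Rl.cons (nat_lit 0) (nat_lit 2) Rl.nil) C2_1 = true := by decide +kernel
def wf2_2 : wfC (nat_lit 49) (nat_lit 17) C2_2 = true := by decide +kernel
def rf2_2 : rfCk (nat_lit 59) (nat_lit 27) (nat_lit 49) (nat_lit 17) (nat_lit 9) (nat_lit 0) (nat_lit 2) TL2 CL1 CL2 = true := by decide +kernel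
def st2_2_0 : starCk (nat_lit 49) (nat_lit 17) (nat_lit 1) (nat_lit 8) (nat_lit 7) (nat_lit 6) (nat_lit 1) C2_2 = true := by decide +kernel
def sc2_2 : stCov (nat_lit 0) (nat_lit 6) (Rl.cons (nat_lit 6) (nat_lit 7) Rl.nil) C2_2 = true := by decide +kernel
def wf2_3 : wfC (nat_lit 49) (nat_lit 17) C2_3 = true := by decide +kernel
def rf2_3 : rfCk (nat_lit 59) (nat_lit 27) (nat_lit 49) (nat_lit 17) (nat_lit 9) (nat_lit 0) (nat_lit 3) TL2 CL1 CL2 = true := by decide +kernel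
def st2_3_0 : starCk (nat_lit 49) (nat_lit 17) (nat_lit 1) (nat_lit 8) (nat_lit 4) (nat_lit 3) (nat_lit 1) C2_3 = true := by decide +kernel
def sc2_3 : stCov (nat_lit 0) (nat_lit 3) (Rl.cons (nat_lit 3) (nat_lit 4) Rl.nil) C2_3 = true := by decide +kernel
def wf2_4 : wfC (nat_lit 49) (nat_lit 17) C2_4 = true := by decide +kernel
def rf2_4 : rfCk (nat_lit 59) (nat_lit 27) (nat_lit 49) (nat_lit 17) (nat_lit 9) (nat_lit 0) (nat_lit 4) TL2 CL1 CL2 = true := by decide +kernel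
def st2_4_0 : starCk (nat_lit 49) (nat_lit 17) (nat_lit 1) (nat_lit 8) (nat_lit 12) (nat_lit 19) (nat_lit 1) C2_4 = true := by decide +kernel
def sc2_4 : stCov (nat_lit 0) (nat_lit 19) (Rl.cons (nat_lit 19) (nat_lit 12) Rl.nil) C2_4 = true := by decide +kernel
def wf2_5 : wfC (nat_lit 49) (nat_lit 17) C2_5 = true := by decide +kernel
def rf2_5 : rfCk (nat_lit 59) (nat_lit 27) (nat_lit 49) (nat_lit 17) (nat_lit 9) (nat_lit 0) (nat_lit 5) TL2 CL1 CL2 = true := by decide +kernel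
def st2_5_0 : starCk (nat_lit 49) (nat_lit 17) (nat_lit 1) (nat_lit 8) (nat_lit 4) (nat_lit 6) (nat_lit 1) C2_5 = true := by decide +kernel
def sc2_5 : stCov (nat_lit 0) (nat_lit 6) (Rl.cons (nat_lit 6) (nat_lit 4) Rl.nil) C2_5 = true := by decide +kernel
def wf2_7 : wfC (nat_lit 49) (nat_lit 17) C2_7 = true := by decide +kernel
def rf2_7 : rfCk (nat_lit 59) (nat_lit 27) (nat_lit 49) (nat_lit 17) (nat_lit 9) (nat_lit 0) (nat_lit 7) TL2 CL1 CL2 = true := by decide +kernel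
def st2_7_0 : starCk (nat_lit 49) (nat_lit 17) (nat_lit 1) (nat_lit 8) (nat_lit 8) (nat_lit 21) (nat_lit 16) C2_7 = true := by decide +kernel
def sc2_7 : stCov (nat_lit 1) (nat_lit 21) (Rl.cons (nat_lit 21) (nat_lit 8) Rl.nil) C2_7 = true := by decide +kernel
def wf2_9 : wfC (nat_lit 49) (nat_lit 17) C2_9 = true := by decide +kernel
def rf2_9 : rfCk (nat_lit 59) (nat_lit 27) (nat_lit 49) (nat_lit 17) (nat_lit 9) (nat_lit 0) (nat_lit 9) TL2 CL1 CL2 = true := by decide +kernel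
def st2_9_0 : starCk (nat_lit 49) (nat_lit 17) (nat_lit 1) (nat_lit 8) (nat_lit 5) (nat_lit 32) (nat_lit 256) C2_9 = true := by decide +kernel
def sc2_9 : stCov (nat_lit 2) (nat_lit 32) (Rl.cons (nat_lit 32) (nat_lit 5) Rl.nil) C2_9 = true := by decide +kernel
def wf2_10 : wfC (nat_lit 49) (nat_lit 17) C2_10 = true := by decide +kernel
def rf2_10 : rfCk (nat_lit 59) (nat_lit 27) (nat_lit 49) (nat_lit 17) (nat_lit 9) (nat_lit 0) (nat_lit 10) TL2 CL1 CL2 = true := by decide +kernel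
def st2_10_0 : starCk (nat_lit 49) (nat_lit 17) (nat_lit 1) (nat_lit 8) (nat_lit 2) (nat_lit 3) (nat_lit 256) C2_10 = true := by decide +kernel
def sc2_10 : stCov (nat_lit 2) (nat_lit 3) (Rl.cons (nat_lit 3) (nat_lit 2) Rl.nil) C2_10 = true := by decide +kernel
def wf2_17 : wfC (nat_lit 49) (nat_lit 17) C2_17 = true := by decide +kernel
def rf2_17 : rfCk (nat_lit 59) (nat_lit 27) (nat_lit 49) (nat_lit 17) (nat_lit 9) (nat_lit 0) (nat_lit 17) TL2 CL1 CL2 = true := by decide +kernel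
def st2_17_0 : starCk (nat_lit 49) (nat_lit 17) (nat_lit 1) (nat_lit 8) (nat_lit 3) (nat_lit 7) (nat_lit 4096) C2_17 = true := by decide +kernel
def sc2_17 : stCov (nat_lit 3) (nat_lit 7) (Rl.cons (nat_lit 7) (nat_lit 3) Rl.nil) C2_17 = true := by decide +kernel
def wf2_18 : wfC (nat_lit 49) (nat_lit 17) C2_18 = true := by decide +kernel
def rf2_18 : rfCk (nat_lit 59) (nat_lit 27) (nat_lit 49) (nat_lit 17) (nat_lit 9) (nat_lit 0) (nat_lit 18) TL2 CL1 CL2 = true := by decide +kernel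
def st2_18_0 : starCk (nat_lit 49) (nat_lit 17) (nat_lit 1) (nat_lit 8) (nat_lit 26) (nat_lit 64) (nat_lit 16) C2_18 = true := by decide +kernel
def sc2_18 : stCov (nat_lit 1) (nat_lit 64) (Rl.cons (nat_lit 64) (nat_lit 26) Rl.nil) C2_18 = true := by decide +kernel
def wf2_19 : wfC (nat_lit 49) (nat_lit 17) C2_19 = true := by decide +kernel
def rf2_19 : rfCk (nat_lit 59) (nat_lit 27) (nat_lit 49) (nat_lit 17) (nat_lit 9) (nat_lit 0) (nat_lit 19) TL2 CL1 CL2 = true := by decide +kernel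
def st2_19_0 : starCk (nat_lit 49) (nat_lit 17) (nat_lit 1) (nat_lit 8) (nat_lit 14) (nat_lit 18) (nat_lit 1) C2_19 = true := by decide +kernel
def sc2_19 : stCov (nat_lit 0) (nat_lit 18) (Rl.cons (nat_lit 18) (nat_lit 14) Rl.nil) C2_19 = true := by decide +kernel
def wf2_21 : wfC (nat_lit 49) (nat_lit 17) C2_21 = true := by decide +kernel
def rf2_21 : rfCk (nat_lit 59) (nat_lit 27) (nat_lit 49) (nat_lit 17) (nat_lit 9) (nat_lit 0) (nat_lit 21) TL2 CL1 CL2 = true := by decide +kernel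
def st2_21_0 : starCk (nat_lit 49) (nat_lit 17) (nat_lit 1) (nat_lit 8) (nat_lit 13) (nat_lit 28) (nat_lit 16) C2_21 = true := by decide +kernel
def sc2_21 : stCov (nat_lit 1) (nat_lit 28) (Rl.cons (nat_lit 28) (nat_lit 13) Rl.nil) C2_21 = true := by decide +kernel
def wf2_23 : wfC (nat_lit 49) (nat_lit 17) C2_23 = true := by decide +kernel
def rf2_23 : rfCk (nat_lit 59) (nat_lit 27) (nat_lit 49) (nat_lit 17) (nat_lit 9) (nat_lit 0) (nat_lit 23) TL2 CL1 CL2 = true := by decide +kernel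
def st2_23_0 : starCk (nat_lit 49) (nat_lit 17) (nat_lit 1) (nat_lit 8) (nat_lit 4) (nat_lit 6) (nat_lit 4096) C2_23 = true := by decide +kernel
def sc2_23 : stCov (nat_lit 3) (nat_lit 6) (Rl.cons (nat_lit 6) (nat_lit 4) Rl.nil) C2_23 = true := by decide +kernel
def ti2_0 : tileCk (nat_lit 49) (nat_lit 17) (nat_lit 2) (nat_lit 8) (nat_lit 122) (nat_lit 13) (nat_lit 24) ZL2_0 CL2 = true := by decide +kernel
def zl2_0 : zlOK (nat_lit 122) ZL2_0 = true := by decide +kernel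
def tc2_0 : tiCov (nat_lit 1) (nat_lit 0) ZZ2 C2_0 = true := by decide +kernel
def tc2_1 : tiCov (nat_lit 1) (nat_lit 1) ZZ2 C2_1 = true := by decide +kernel
def tc2_2 : tiCov (nat_lit 1) (nat_lit 2) ZZ2 C2_2 = true := by decide +kernel
def tc2_3 : tiCov (nat_lit 1) (nat_lit 3) ZZ2 C2_3 = true := by decide +kernel
def tc2_4 : tiCov (nat_lit 1) (nat_lit 4) ZZ2 C2_4 = true := by decide +kernel
def tc2_5 : tiCov (nat_lit 1) (nat_lit 5) ZZ2 C2_5 = true := by decide +kernel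
def tc2_7 : tiCov (nat_lit 1) (nat_lit 7) ZZ2 C2_7 = true := by decide +kernel

end Pool.Agent.NNr.R13_1_2_5
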